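import Mathlib
import Pool.Agent.R439.W3C

set_option autoImplicit false

namespace Pool.Agent.Results.MP_ee25d9_nt.AllExponents

open Finset Pool.Agent.R439

/-- The numbers `a_k` of the problem. -/
def a (k : ℕ) : ℚ :=
  ∑ j ∈ range (k + 1), ((2 * j).choose j : ℚ) ^ 3 * ((2 * k - 2 * j).choose (k - j) : ℚ) ^ 3

/-- The sum `S(p,r)` of the problem. -/
def S (p r : ℕ) : ℚ := ∑ k ∈ range (p ^ r), a k / 64 ^ k

/-- **Answer to Q1** (positive): for every prime `p > 3` with `p ≡ 3 mod 4` and every `r ≥ 1`,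
`S(p,r) ≡ 0 (mod p^4)`. -/
theorem result : ∀ p r : ℕ, p.Prime → p % 4 = 3 → 3 < p → 1 ≤ r →
    ∃ t : ℚ, S p r = (p : ℚ) ^ 4 * t ∧ ¬ p ∣ t.den := by
  intro p r hp h4 h3 hr
  have : Fact p.Prime := ⟨hp⟩
  have h := PL.S4.exists_of_I (PL.W4.all_r h3 h4 hr)
  have e : S p r = ∑ i ∈ range (p ^ r), ch i ^ 3 * PL.W4.UU (p ^ r - i) := by
    unfold S PL.W4.UU
    rw [PL.W4.tri (fun i => ch i ^ 3) (fun i => ch i ^ 3)]
    refine sum_congr rfl fun k _ => ?_
    rw [a, sum_div]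
    refine sum_congr rfl fun j hj => ?_
    have hj' := mem_range.1 hj
    rw [← Nat.mul_sub, ← PL.S4.ch_C, ← PL.S4.ch_C, mul_pow, mul_pow, ← pow_mul, ← pow_mul,
      mul_comm j 3, mul_comm (k - j) 3, pow_mul, pow_mul]
    have h1 : (64 : ℚ) ^ k = (4 ^ 3) ^ j * (4 ^ 3) ^ (k - j) := by
      rw [← pow_add, show j + (k - j) = k by omega]; norm_num
    rw [h1]
    field_simp
  rw [e]
  exact h

end Pool.Agent.Results.MP_ee25d9_nt.AllExponents
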