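import Pool.Agent.R443.EE5

/-!
MP_ee25d9_nt: for every prime `p` with `p ≡ 3` modulo `4` and `p > 3`, and every `r ≥ 1`,
`p^4` divides the numerator of `sum_(k < p^r) a_k / 64^k`, where
`a_k = sum_(0 ≤ j ≤ k) C(2j,j)^3 C(2k-2j,k-j)^3`.
-/

set_option autoImplicit false

namespace Pool.Agent.Results.MP_ee25d9_nt.SunConvCubes

open Finset

/-- `a_k = sum_(0 ≤ j ≤ k) C(2j,j)^3 C(2k-2j,k-j)^3`. -/
def a (k : ℕ) : ℕ :=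
  ∑ j ∈ range (k + 1), Nat.choose (2 * j) j ^ 3 * Nat.choose (2 * k - 2 * j) (k - j) ^ 3

/-- `sum_(0 ≤ k < N) a_k / 64^k`. -/
def partialSum (N : ℕ) : ℚ := ∑ k ∈ range N, (a k : ℚ) / 64 ^ k

/-- `S(p,r) = sum_(0 ≤ k ≤ p^r - 1) a_k / 64^k`. -/
def S (p r : ℕ) : ℚ := partialSum (p ^ r)

theorem result :
    (∀ p r : ℕ, p.Prime → p % 4 = 3 → 3 < p → 1 ≤ r → (p : ℤ) ^ 4 ∣ (S p r).num) ∧
    (∀ p M : ℕ, p.Prime → p % 4 = 3 → 3 < p → (p : ℤ) ^ 4 ∣ (partialSum (p * M)).num) := by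
  refine ⟨fun p r hp h4 h3 hr => ?_, fun p M hp h4 h3 =>
    Pool.Agent.R443.EE.main_rat hp h4 h3 M⟩
  obtain ⟨q, rfl⟩ : ∃ q, r = q + 1 := ⟨r - 1, by omega⟩
  have h := Pool.Agent.R443.EE.main_rat hp h4 h3 (p ^ q)
  rw [← pow_succ'] at h
  exact h

end Pool.Agent.Results.MP_ee25d9_nt.SunConvCubes
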